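import Pool.Agent.H38.BK.Erg2

/-!
# Burton-Keane: counting splitting boxes in a large box
-/

open MeasureTheory Filter Topology
open scoped ENNReal
open Pool.Agent.H17.IIC Pool.Agent.H41.QC Pool.Agent.H47.GM

namespace Pool.Agent.H38.BK

variable {d : ℕ}

/-- local splitting event in the box of radius `M` -/
def TriL (κ : Kind) (n : ℕ) (z : V d) (M : ℕ) (ω : El d → Bool) : Prop :=
  (∀ u ∈ (Bx z n : Set (V d)), ∀ v ∈ (Bx z n : Set (V d)),
    (rs (rs (Gr κ ω) (Bx (0 : V d) M)) (Bx z n : Set (V d))).Reachable u v) ∧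
  ∃ a : Fin 3 → V d, (∀ k, a k ∉ (Bx z n : Set (V d))) ∧
    (∀ k, ∃ b ∈ (Bx z n : Set (V d)), (rs (Gr κ ω) (Bx (0 : V d) M)).Adj b (a k)) ∧
    (∀ k, ∃ x ∈ sph d M, (rs (rs (Gr κ ω) (Bx (0 : V d) M)) (Bx z n : Set (V d))ᶜ).Reachable (a k) x) ∧
    ∀ k l, k ≠ l → ¬ (rs (rs (Gr κ ω) (Bx (0 : V d) M)) (Bx z n : Set (V d))ᶜ).Reachable (a k) (a l)

lemma rs_comm (G : SimpleGraph (V d)) (A B : Set (V d)) : rs (rs G A) B = rs (rs G B) A := by
  ext u v
  simp only [rs_adj]
  tauto

lemma rs_rs_le (G : SimpleGraph (V d)) (A B : Set (V d)) : rs (rs G A) B ≤ rs G B := by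
  intro u v h
  exact ⟨h.1.1, h.2⟩

lemma triL_of_triE {κ : Kind} {n M : ℕ} {z : V d} {ω : El d → Bool} (h : TriE κ n z ω)
    (hz : Bx z (n + 1) ⊆ Bx (0 : V d) M) : TriL κ n z M ω := by
  obtain ⟨h1, a, ha1, ha2, ha3, ha4⟩ := h
  have hsub : ∀ x, x ∈ Bx z n → x ∈ Bx z (n + 1) := by
    intro x hx
    rw [mem_Bx] at hx ⊢
    intro i
    have := hx i
    push_cast
    linarith
  have haM : ∀ k, a k ∈ Bx (0 : V d) M := by
    intro k
    obtain ⟨b, hb, hba⟩ := ha2 k
    apply hz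
    rw [mem_Bx]
    intro i
    have h1 := (mem_Bx.1 (Finset.mem_coe.1 hb)) i
    have h2 := LatAdj.abs_le (gr_lat hba) i
    have h3 : |a k i - z i| ≤ |b i - z i| + |b i - a k i| := by
      have : a k i - z i = (b i - z i) - (b i - a k i) := by ring
      rw [this]
      exact abs_sub _ _
    push_cast
    linarith
  refine ⟨?_, a, ha1, ?_, ?_, ?_⟩
  · intro u hu v hv
    refine reach_mono ?_ (h1 u hu v hv)
    intro s t hst
    exact ⟨⟨hst.1, Finset.mem_coe.2 (hz (hsub s (Finset.mem_coe.1 hst.2.1))),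
      Finset.mem_coe.2 (hz (hsub t (Finset.mem_coe.1 hst.2.2)))⟩, hst.2⟩
  · intro k
    obtain ⟨b, hb, hba⟩ := ha2 k
    exact ⟨b, hb, hba, Finset.mem_coe.2 (hz (hsub b (Finset.mem_coe.1 hb))),
      Finset.mem_coe.2 (haM k)⟩
  · intro k
    obtain ⟨w, hw, hw'⟩ := exists_outside (ha3 k) M
    obtain ⟨x, hx, hax⟩ := exit (G := rs (Gr κ ω) (Bx z n : Set (V d))ᶜ)
      (fun u v h => gr_lat h.1) (haM k) hw' hw
    refine ⟨x, hx, ?_⟩
    rw [rs_comm]
    exact hax
  · intro k l hkl h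
    exact ha4 k l hkl (reach_mono (rs_rs_le _ _ _) h)

lemma triL_on (κ : Kind) (n : ℕ) (z : V d) (M : ℕ) :
    On (elI d M : Set (El d)) {ω | TriL κ n z M ω} := by
  intro ω ω' hω
  show TriL κ n z M ω ↔ TriL κ n z M ω'
  unfold TriL
  rw [rs_elI (κ := κ) hω]

lemma triL_meas (κ : Kind) (n : ℕ) (z : V d) (M : ℕ) :
    MeasurableSet {ω : El d → Bool | TriL κ n z M ω} :=
  (triL_on κ n z M).measurableSet

open Classical in
/-- deterministic bound on the number of splitting boxes -/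
lemma count_le (κ : Kind) (n M : ℕ) (J : Finset (V d)) (ω : El d → Bool)
    (hdisj : ∀ z ∈ J, ∀ z' ∈ J, z ≠ z' →
      Disjoint (Bx z n : Set (V d)) (Bx z' n : Set (V d)))
    (hin : ∀ z ∈ J, ∀ x ∈ sph d M, x ∉ (Bx z n : Set (V d))) :
    (J.filter fun z => TriL κ n z M ω).card ≤ (sph d M).card := by
  obtain ⟨c, hc⟩ := Countable.exists_injective_nat (V d)
  refine tri_count (G := rs (Gr κ ω) (Bx (0 : V d) M)) hc (B := fun z => (Bx z n : Set (V d)))
    ?_ ?_ ?_ ?_
  · intro z hz z' hz' hne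
    exact hdisj z (Finset.mem_filter.1 hz).1 z' (Finset.mem_filter.1 hz').1 hne
  · intro z hz
    exact (Finset.mem_filter.1 hz).2.1
  · intro z hz
    exact hin z (Finset.mem_filter.1 hz).1
  · intro z hz
    exact (Finset.mem_filter.1 hz).2.2

lemma triE_tr {κ : Kind} {φ : V d ≃ V d} (hφ : IsAut φ) {ω : El d → Bool} {n : ℕ} {z : V d}
    (h : TriE κ n z (tr φ ω)) : TriE κ n (φ z) ω := by
  obtain ⟨h1, a, ha1, ha2, ha3, ha4⟩ := h
  have hB : ∀ u, φ u ∈ (Bx (φ z) n : Set (V d)) ↔ u ∈ (Bx z n : Set (V d)) := fun u => by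
    rw [Finset.mem_coe, Finset.mem_coe]
    exact hφ.box z u n
  have hBc : ∀ u, φ u ∈ (Bx (φ z) n : Set (V d))ᶜ ↔ u ∈ (Bx z n : Set (V d))ᶜ := fun u =>
    not_congr (hB u)
  refine ⟨?_, fun k => φ (a k), ?_, ?_, ?_, ?_⟩
  · intro u hu v hv
    have h2 := h1 (φ.symm u) ((hB _).1 (by rwa [Equiv.apply_symm_apply])) (φ.symm v)
      ((hB _).1 (by rwa [Equiv.apply_symm_apply]))
    rw [reach_tr hφ ω hB, Equiv.apply_symm_apply, Equiv.apply_symm_apply] at h2
    exact h2
  · intro k h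
    exact ha1 k ((hB _).1 h)
  · intro k
    obtain ⟨b, hb, hba⟩ := ha2 k
    exact ⟨φ b, (hB b).2 hb, (gr_tr hφ ω).1 hba⟩
  · intro k
    have h2 : (φ '' {y | (rs (Gr κ (tr φ ω)) (Bx z n : Set (V d))ᶜ).Reachable (a k) y}).Infinite :=
      (ha3 k).image φ.injective.injOn
    refine h2.mono ?_
    rintro _ ⟨y, hy, rfl⟩
    exact (reach_tr hφ ω hBc).1 hy
  · intro k l hkl h
    exact ha4 k l hkl ((reach_tr hφ ω hBc).2 h)

lemma triE_prob (κ : Kind) (p : unitInterval) (n : ℕ) (z : V d) :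
    prodBern (El d) p {ω | TriE κ n 0 ω} ≤ prodBern (El d) p {ω | TriE κ n z ω} := by
  set φ : V d ≃ V d := Equiv.addRight z with hφ
  have hm : Measurable (tr φ.symm : (El d → Bool) → (El d → Bool)) :=
    measurable_pi_iff.2 fun e => measurable_pi_apply _
  have hinv : ∀ ω : El d → Bool, tr φ (tr φ.symm ω) = ω := by
    intro ω
    funext e
    unfold tr
    rw [Sym2.map_map]
    have : (φ.symm : V d → V d) ∘ φ = id := by
      funext x
      simp
    rw [this, Sym2.map_id, id]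
  have h1 : {ω : El d → Bool | TriE κ n 0 ω} ⊆
      tr φ.symm ⁻¹' {ω | TriE κ n z ω} := by
    intro ω hω
    show TriE κ n z (tr φ.symm ω)
    have h2 : TriE κ n 0 (tr φ (tr φ.symm ω)) := by
      rw [hinv]; exact hω
    have h3 := triE_tr (isAut_add z) h2
    have h4 : (Equiv.addRight z) (0 : V d) = z := by simp
    rw [h4] at h3
    exact h3
  calc prodBern (El d) p {ω | TriE κ n 0 ω} ≤ prodBern (El d) p (tr φ.symm ⁻¹' {ω | TriE κ n z ω}) :=
        measure_mono h1
    _ ≤ (prodBern (El d) p).map (tr φ.symm) {ω | TriE κ n z ω} :=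
        Measure.le_map_apply hm.aemeasurable _
    _ = prodBern (El d) p {ω | TriE κ n z ω} := by rw [tr_law φ.symm p]

/-- the expectation bound -/
theorem count_prob (κ : Kind) (p : unitInterval) (n M : ℕ) (J : Finset (V d))
    (hdisj : ∀ z ∈ J, ∀ z' ∈ J, z ≠ z' →
      Disjoint (Bx z n : Set (V d)) (Bx z' n : Set (V d)))
    (hin : ∀ z ∈ J, ∀ x ∈ sph d M, x ∉ (Bx z n : Set (V d)))
    (hbox : ∀ z ∈ J, Bx z (n + 1) ⊆ Bx (0 : V d) M) :
    (J.card : ℝ≥0∞) * prodBern (El d) p {ω | TriE κ n 0 ω} ≤ ((sph d M).card : ℝ≥0∞) := by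
  classical
  have h1 : ∀ z ∈ J, prodBern (El d) p {ω | TriE κ n 0 ω} ≤
      prodBern (El d) p {ω | TriL κ n z M ω} := by
    intro z hz
    exact (triE_prob κ p n z).trans (measure_mono fun ω hω => triL_of_triE hω (hbox z hz))
  calc (J.card : ℝ≥0∞) * prodBern (El d) p {ω | TriE κ n 0 ω}
      = ∑ z ∈ J, prodBern (El d) p {ω | TriE κ n 0 ω} := by
        rw [Finset.sum_const, nsmul_eq_mul]
    _ ≤ ∑ z ∈ J, prodBern (El d) p {ω | TriL κ n z M ω} := Finset.sum_le_sum h1
    _ = ∑ z ∈ J, ∫⁻ ω, {ω | TriL κ n z M ω}.indicator (fun _ => (1 : ℝ≥0∞)) ω ∂(prodBern (El d) p) := by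
        refine Finset.sum_congr rfl fun z _ => ?_
        rw [lintegral_indicator_const (triL_meas κ n z M), one_mul]
    _ = ∫⁻ ω, ∑ z ∈ J, {ω | TriL κ n z M ω}.indicator (fun _ => (1 : ℝ≥0∞)) ω ∂(prodBern (El d) p) := by
        rw [lintegral_finsetSum]
        intro z _
        exact measurable_const.indicator (triL_meas κ n z M)
    _ ≤ ∫⁻ _, ((sph d M).card : ℝ≥0∞) ∂(prodBern (El d) p) := by
        apply lintegral_mono
        intro ω
        have h2 : ∑ z ∈ J, {ω | TriL κ n z M ω}.indicator (fun _ => (1 : ℝ≥0∞)) ω =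
            ((J.filter fun z => TriL κ n z M ω).card : ℝ≥0∞) := by
          rw [Finset.card_filter, Nat.cast_sum]
          refine Finset.sum_congr rfl fun z _ => ?_
          by_cases hz : TriL κ n z M ω
          · rw [Set.indicator_of_mem (show ω ∈ {ω | TriL κ n z M ω} from hz), if_pos hz]
            simp
          · rw [Set.indicator_of_notMem (show ω ∉ {ω | TriL κ n z M ω} from hz), if_neg hz]
            simp
        show ∑ z ∈ J, {ω | TriL κ n z M ω}.indicator (fun _ => (1 : ℝ≥0∞)) ω ≤ _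
        rw [h2]
        have h3 := count_le κ n M J ω hdisj hin
        show ((J.filter fun z => TriL κ n z M ω).card : ℝ≥0∞) ≤ ((sph d M).card : ℝ≥0∞)
        exact_mod_cast h3
    _ = ((sph d M).card : ℝ≥0∞) := by
        rw [lintegral_const, measure_univ, mul_one]

lemma card_Bx (c : V d) (r : ℕ) : (Bx c r).card = (2 * r + 1) ^ d := by
  unfold Bx
  rw [Fintype.card_piFinset]
  have : ∀ i : Fin d, (Finset.Icc (c i - r) (c i + r)).card = 2 * r + 1 := by
    intro i
    rw [Int.card_Icc]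
    have : c i + (r : ℤ) + 1 - (c i - r) = ((2 * r + 1 : ℕ) : ℤ) := by push_cast; ring
    rw [this, Int.toNat_natCast]
  simp [this]

lemma card_sph (d M : ℕ) : (sph d M).card ≤ 2 * d * (2 * M + 1) ^ (d - 1) := by
  classical
  set P : Fin d → ℤ → Finset (V d) := fun i σ =>
    Fintype.piFinset fun j => if j = i then {σ} else Finset.Icc (-(M : ℤ)) M with hP
  have hcard : ∀ i σ, (P i σ).card = (2 * M + 1) ^ (d - 1) := by
    intro i σ
    rw [hP]
    simp only
    rw [Fintype.card_piFinset]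
    have h1 : ∀ j : Fin d, (if j = i then ({σ} : Finset ℤ) else Finset.Icc (-(M : ℤ)) M).card =
        if j = i then 1 else 2 * M + 1 := by
      intro j
      by_cases hj : j = i
      · rw [if_pos hj, if_pos hj, Finset.card_singleton]
      · rw [if_neg hj, if_neg hj, Int.card_Icc]
        have : (M : ℤ) + 1 - -(M : ℤ) = ((2 * M + 1 : ℕ) : ℤ) := by push_cast; ring
        rw [this, Int.toNat_natCast]
    rw [Finset.prod_congr rfl fun j _ => h1 j, Finset.prod_ite, Finset.prod_const_one, one_mul,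
      Finset.prod_const]
    congr 1
    have h2 : (Finset.univ.filter fun j : Fin d => ¬ j = i) = Finset.univ.erase i := by
      ext j
      simp
    rw [h2, Finset.card_erase_of_mem (Finset.mem_univ i), Finset.card_univ, Fintype.card_fin]
  have hsub : sph d M ⊆ Finset.univ.biUnion fun i : Fin d =>
      P i M ∪ P i (-M) := by
    intro x hx
    obtain ⟨h1, i, hi⟩ := mem_sph.1 hx
    rw [Finset.mem_biUnion]
    refine ⟨i, Finset.mem_univ i, ?_⟩
    have hmem : ∀ σ, x i = σ → x ∈ P i σ := by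
      intro σ hσ
      rw [hP]
      simp only
      rw [Fintype.mem_piFinset]
      intro j
      by_cases hj : j = i
      · subst hj
        rw [if_pos rfl, Finset.mem_singleton, hσ]
      · rw [if_neg hj, Finset.mem_Icc, ← abs_le]
        exact (mem_Bx0.1 h1) j
    rw [Finset.mem_union]
    rcases abs_eq (Int.natCast_nonneg M) |>.1 hi with h | h
    · exact Or.inl (hmem _ h)
    · exact Or.inr (hmem _ h)
  refine (Finset.card_le_card hsub).trans (Finset.card_biUnion_le.trans ?_)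
  have h3 : ∀ i ∈ (Finset.univ : Finset (Fin d)), (P i M ∪ P i (-M)).card ≤ 2 * (2 * M + 1) ^ (d - 1) := by
    intro i _
    refine (Finset.card_union_le _ _).trans ?_
    rw [hcard, hcard]
    omega
  refine (Finset.sum_le_sum h3).trans ?_
  rw [Finset.sum_const, Finset.card_univ, Fintype.card_fin, smul_eq_mul]
  apply le_of_eq
  ring

/-- splitting boxes do not exist -/
theorem triE_null (hd : 0 < d) (κ : Kind) (p : unitInterval) (n : ℕ) :
    prodBern (El d) p {ω | TriE κ n 0 ω} = 0 := by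
  classical
  by_contra hne
  set c : ℝ := (prodBern (El d) p).real {ω | TriE κ n 0 ω} with hc
  have hcpos : 0 < c := by
    refine lt_of_le_of_ne measureReal_nonneg ?_
    intro h0
    exact hne ((measureReal_eq_zero_iff (measure_ne_top _ _)).1 h0.symm)
  -- the bound for every `k`
  have key : ∀ k : ℕ, c * (2 * k + 1) ≤ 2 * d * (2 * n + 3) ^ (d - 1) := by
    intro k
    set M : ℕ := (2 * n + 1) * k + n + 1 with hM
    set J : Finset (V d) := (Bx (0 : V d) k).image fun j i => ((2 * n + 1 : ℕ) : ℤ) * j i with hJ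
    have hJcard : J.card = (2 * k + 1) ^ d := by
      rw [hJ, Finset.card_image_of_injective, card_Bx]
      intro j j' h
      funext i
      have := congrFun h i
      simp only at this
      have h2 : ((2 * n + 1 : ℕ) : ℤ) ≠ 0 := by positivity
      exact mul_left_cancel₀ h2 this
    have hJb : ∀ z ∈ J, ∀ i, |z i| ≤ ((2 * n + 1 : ℕ) : ℤ) * k := by
      intro z hz i
      rw [hJ, Finset.mem_image] at hz
      obtain ⟨j, hj, rfl⟩ := hz
      simp only
      rw [abs_mul, abs_of_nonneg (Int.natCast_nonneg _)]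
      exact mul_le_mul_of_nonneg_left ((mem_Bx0.1 hj) i) (Int.natCast_nonneg _)
    have hdisj : ∀ z ∈ J, ∀ z' ∈ J, z ≠ z' →
        Disjoint (Bx z n : Set (V d)) (Bx z' n : Set (V d)) := by
      intro z hz z' hz' hne'
      rw [Set.disjoint_left]
      intro x hx hx'
      apply hne'
      rw [hJ, Finset.mem_image] at hz hz'
      obtain ⟨j, hj, rfl⟩ := hz
      obtain ⟨j', hj', rfl⟩ := hz'
      funext i
      have h1 := (mem_Bx.1 (Finset.mem_coe.1 hx)) i
      have h2 := (mem_Bx.1 (Finset.mem_coe.1 hx')) i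
      rw [abs_le] at h1 h2
      have h3 : ((2 * n + 1 : ℕ) : ℤ) * (j i - j' i) ≤ 2 * n := by
        push_cast at h1 h2 ⊢
        linarith
      have h4 : ((2 * n + 1 : ℕ) : ℤ) * (j' i - j i) ≤ 2 * n := by
        push_cast at h1 h2 ⊢
        linarith
      have h5 : j i = j' i := by
        by_contra hji
        rcases lt_or_gt_of_ne hji with h | h
        · have : ((2 * n + 1 : ℕ) : ℤ) * 1 ≤ ((2 * n + 1 : ℕ) : ℤ) * (j' i - j i) :=
            mul_le_mul_of_nonneg_left (by omega) (Int.natCast_nonneg _)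
          push_cast at this h4
          linarith
        · have : ((2 * n + 1 : ℕ) : ℤ) * 1 ≤ ((2 * n + 1 : ℕ) : ℤ) * (j i - j' i) :=
            mul_le_mul_of_nonneg_left (by omega) (Int.natCast_nonneg _)
          push_cast at this h3
          linarith
      show ((2 * n + 1 : ℕ) : ℤ) * j i = ((2 * n + 1 : ℕ) : ℤ) * j' i
      rw [h5]
    have hzx : ∀ z ∈ J, ∀ r : ℕ, ∀ x ∈ Bx z r, ∀ i, |x i| ≤ ((2 * n + 1 : ℕ) : ℤ) * k + r := by
      intro z hz r x hx i
      have h1 := (mem_Bx.1 hx) i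
      have h2 := hJb z hz i
      have h3 : |x i| ≤ |x i - z i| + |z i| := by
        have : x i = (x i - z i) + z i := by ring
        conv_lhs => rw [this]
        exact abs_add_le _ _
      linarith
    have hin : ∀ z ∈ J, ∀ x ∈ sph d M, x ∉ (Bx z n : Set (V d)) := by
      intro z hz x hx hxz
      obtain ⟨-, i, hi⟩ := mem_sph.1 hx
      have := hzx z hz n x (Finset.mem_coe.1 hxz) i
      rw [hi, hM] at this
      push_cast at this
      linarith
    have hbox : ∀ z ∈ J, Bx z (n + 1) ⊆ Bx (0 : V d) M := by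
      intro z hz x hx
      rw [mem_Bx0]
      intro i
      have := hzx z hz (n + 1) x hx i
      rw [hM]
      push_cast at this ⊢
      linarith
    have h1 := count_prob κ p n M J hdisj hin hbox
    have h2 : (J.card : ℝ) * c ≤ ((sph d M).card : ℝ) := by
      have h3 := ENNReal.toReal_mono (ENNReal.natCast_ne_top _) h1
      rw [ENNReal.toReal_mul, ENNReal.toReal_natCast, ENNReal.toReal_natCast] at h3
      exact h3
    rw [hJcard] at h2
    have h4 : ((sph d M).card : ℝ) ≤ 2 * d * (2 * M + 1) ^ (d - 1) := by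
      exact_mod_cast card_sph d M
    have h5 : ((2 : ℝ) * M + 1) ≤ (2 * n + 3) * (2 * k + 1) := by
      have : (2 : ℕ) * M + 1 ≤ (2 * n + 3) * (2 * k + 1) := by
        rw [hM]
        nlinarith [Nat.zero_le n, Nat.zero_le k]
      exact_mod_cast this
    have h6 : ((2 : ℝ) * M + 1) ^ (d - 1) ≤ ((2 * n + 3) * (2 * k + 1)) ^ (d - 1) :=
      pow_le_pow_left₀ (by positivity) h5 _
    have h7 : ((2 * k + 1 : ℕ) : ℝ) ^ d * c ≤ 2 * d * ((2 * n + 3) * (2 * k + 1)) ^ (d - 1) := by
      have h8 : ((2 * k + 1 : ℕ) : ℝ) ^ d * c ≤ ((sph d M).card : ℝ) := by exact_mod_cast h2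
      refine h8.trans (h4.trans ?_)
      exact mul_le_mul_of_nonneg_left h6 (by positivity)
    obtain ⟨e, rfl⟩ : ∃ e, d = e + 1 := ⟨d - 1, by omega⟩
    rw [Nat.add_sub_cancel] at h7 ⊢
    rw [mul_pow] at h7
    push_cast at h7 ⊢
    have h9 : (0 : ℝ) < (2 * k + 1) ^ e := by positivity
    have h10 : (c * (2 * k + 1)) * (2 * k + 1) ^ e ≤
        (2 * (e + 1) * (2 * n + 3) ^ e) * (2 * k + 1) ^ e := by
      calc (c * (2 * k + 1)) * (2 * k + 1) ^ e = (2 * k + 1) ^ (e + 1) * c := by ring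
        _ ≤ _ := h7
        _ = _ := by ring
    exact le_of_mul_le_mul_right h10 h9
  obtain ⟨k, hk⟩ := exists_nat_gt ((2 * d * (2 * n + 3) ^ (d - 1) : ℝ) / c)
  have h1 := key k
  rw [div_lt_iff₀ hcpos] at hk
  have h2 : (k : ℝ) * c ≤ c * (2 * k + 1) := by
    have : (0 : ℝ) ≤ k := Nat.cast_nonneg k
    nlinarith
  linarith

end Pool.Agent.H38.BK
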