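import Pool.Agent.H17.IIC.Resample

/-!
# Burton-Keane: insertion tolerance in almost sure form
-/

open MeasureTheory Filter Topology
open scoped ENNReal
open Pool.Agent.H17.IIC

namespace Pool.Agent.H38.BK

variable {ι : Type*}

open Classical in
/-- open all elements of `F` -/
noncomputable def opn (F : Finset ι) (ω : ι → Bool) : ι → Bool :=
  fun e => if e ∈ F then true else ω e

lemma opn_mem {F : Finset ι} {ω : ι → Bool} {e : ι} (h : e ∈ F) : opn F ω e = true := by
  unfold opn
  rw [if_pos h]

lemma opn_notMem {F : Finset ι} {ω : ι → Bool} {e : ι} (h : e ∉ F) : opn F ω e = ω e := by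
  unfold opn
  rw [if_neg h]

lemma opn_ge {F : Finset ι} {ω : ι → Bool} {e : ι} (h : ω e = true) : opn F ω e = true := by
  by_cases he : e ∈ F
  · exact opn_mem he
  · rw [opn_notMem he, h]

open Classical in
lemma ae_update {p : unitInterval} (hp : 0 < (p : ℝ)) (e : ι) {P : (ι → Bool) → Prop}
    (h : ∀ᵐ ω ∂(prodBern ι p), P ω) : ∀ᵐ ω ∂(prodBern ι p), P (Function.update ω e true) := by
  obtain ⟨t, ht, htm, ht0⟩ := exists_measurable_superset_of_null (ae_iff.1 h)
  have hf : Measurable (t.indicator (fun _ => (1 : ℝ≥0∞))) := measurable_const.indicator htm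
  have h1 := resample p e hf
  rw [lintegral_indicator_const htm, ht0, mul_zero] at h1
  have h2 : ENNReal.ofReal (p : ℝ) *
      ∫⁻ ω, t.indicator (fun _ => (1 : ℝ≥0∞)) (Function.update ω e true) ∂(prodBern ι p) = 0 := by
    have := h1.symm
    rw [add_eq_zero] at this
    exact this.1
  have h3 : ∫⁻ ω, t.indicator (fun _ => (1 : ℝ≥0∞)) (Function.update ω e true) ∂(prodBern ι p) = 0 := by
    rcases mul_eq_zero.1 h2 with h | h
    · rw [ENNReal.ofReal_eq_zero] at h
      linarith
    · exact h
  have h6 : Measurable fun ω : ι → Bool =>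
      t.indicator (fun _ => (1 : ℝ≥0∞)) (Function.update ω e true) :=
    hf.comp (measurable_upd e true)
  rw [lintegral_eq_zero_iff h6] at h3
  filter_upwards [h3] with ω hω
  by_contra hP
  have h4 : Function.update ω e true ∈ t := ht hP
  have h5 : t.indicator (fun _ => (1 : ℝ≥0∞)) (Function.update ω e true) = 0 := hω
  rw [Set.indicator_of_mem h4] at h5
  exact one_ne_zero h5

lemma ae_opn {p : unitInterval} (hp : 0 < (p : ℝ)) (F : Finset ι) {P : (ι → Bool) → Prop}
    (h : ∀ᵐ ω ∂(prodBern ι p), P ω) : ∀ᵐ ω ∂(prodBern ι p), P (opn F ω) := by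
  classical
  induction F using Finset.induction_on with
  | empty =>
    filter_upwards [h] with ω hω
    have : opn (∅ : Finset ι) ω = ω := by
      funext e
      exact opn_notMem (Finset.notMem_empty e)
    rwa [this]
  | insert e F _ ih =>
    have h2 := ae_update hp e ih
    filter_upwards [h2] with ω hω
    have : opn (insert e F) ω = opn F (Function.update ω e true) := by
      funext i
      by_cases hi : i = e
      · subst hi
        rw [opn_mem (Finset.mem_insert_self _ _)]
        symm
        exact opn_ge (by simp)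
      · by_cases hF : i ∈ F
        · rw [opn_mem (Finset.mem_insert_of_mem hF), opn_mem hF]
        · rw [opn_notMem hF, opn_notMem, Function.update_of_ne hi]
          rw [Finset.mem_insert]
          tauto
    rwa [this]

theorem ae_opn_all [Countable ι] {p : unitInterval} (hp : 0 < (p : ℝ)) {P : (ι → Bool) → Prop}
    (h : ∀ᵐ ω ∂(prodBern ι p), P ω) : ∀ᵐ ω ∂(prodBern ι p), ∀ F : Finset ι, P (opn F ω) := by
  rw [ae_all_iff]
  exact fun F => ae_opn hp F h

/-- the set of configurations which can be opened into `T` is null if `T` is null -/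
theorem pos_of_opn [Countable ι] {p : unitInterval} (hp : 0 < (p : ℝ)) {A T : Set (ι → Bool)}
    (hA : prodBern ι p A ≠ 0) (h : ∀ ω ∈ A, ∃ F : Finset ι, opn F ω ∈ T) : prodBern ι p T ≠ 0 := by
  intro hT
  apply hA
  have h1 : ∀ᵐ ω ∂(prodBern ι p), ω ∉ T := by
    rw [ae_iff]
    simpa using hT
  have h2 := ae_opn_all hp h1
  rw [ae_iff] at h2
  refine measure_mono_null ?_ h2
  intro ω hω hcon
  obtain ⟨F, hF⟩ := h ω hω
  exact hcon F hF

end Pool.Agent.H38.BK
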