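import Mathlib

/-!
# Burton-Keane: the deterministic counting lemma

`rs G S` is the graph `G` restricted to the vertex set `S`. If disjoint connected sets `B j`
split the graph into at least three pieces, each of them reaching the finite set `X`, then there
are at most `X.card` of them.
-/

namespace Pool.Agent.H38.BK

variable {V : Type*}

/-- the graph `G` restricted to the vertex set `S` -/
def rs (G : SimpleGraph V) (S : Set V) : SimpleGraph V where
  Adj u v := G.Adj u v ∧ u ∈ S ∧ v ∈ S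
  symm := ⟨fun _ _ h => ⟨h.1.symm, h.2.2, h.2.1⟩⟩
  loopless := ⟨fun _ h => G.loopless.irrefl _ h.1⟩

lemma rs_adj {G : SimpleGraph V} {S : Set V} {u v : V} :
    (rs G S).Adj u v ↔ G.Adj u v ∧ u ∈ S ∧ v ∈ S := Iff.rfl

lemma rs_le (G : SimpleGraph V) (S : Set V) : rs G S ≤ G := fun _ _ h => h.1

lemma rs_mono {G : SimpleGraph V} {S T : Set V} (h : S ⊆ T) : rs G S ≤ rs G T :=
  fun _ _ hh => ⟨hh.1, h hh.2.1, h hh.2.2⟩

lemma reach_mono {G H : SimpleGraph V} (h : G ≤ H) {u v : V} (hr : G.Reachable u v) :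
    H.Reachable u v := hr.mono h

/-- induction along a path from the end -/
lemma reach_induct {G : SimpleGraph V} {u v : V} (P : V → Prop) (hr : G.Reachable u v) (h0 : P u)
    (hs : ∀ a b, G.Reachable u a → P a → G.Adj a b → P b) : P v := by
  obtain ⟨w⟩ := hr
  suffices H : ∀ (a b : V) (w : G.Walk a b), G.Reachable u a → P a → P b from
    H u v w (SimpleGraph.Reachable.refl u) h0
  intro a b w
  induction w with
  | nil => exact fun _ h => h
  | @cons a b c hab p ih => exact fun hr h => ih (hr.trans hab.reachable) (hs a b hr h hab)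

/-- the component of `u` off `B` avoids `C`: then the path avoids `C` as well -/
lemma reach_swap {G : SimpleGraph V} {B C : Set V} {u v : V}
    (hr : (rs G Bᶜ).Reachable u v) (hav : ∀ w, (rs G Bᶜ).Reachable u w → w ∉ C) :
    (rs G Cᶜ).Reachable u v := by
  refine reach_induct (fun w => (rs G Cᶜ).Reachable u w) hr (SimpleGraph.Reachable.refl u) ?_
  intro a b ha hP hab
  refine hP.trans (SimpleGraph.Adj.reachable ⟨hab.1, hav a ha, ?_⟩)
  exact hav b (ha.trans hab.reachable)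

/-- first visit to `B` -/
lemma first_hit {G : SimpleGraph V} {B : Set V} {r b : V} (hr : G.Reachable r b) (hb : b ∈ B)
    (hrB : r ∉ B) : ∃ a, (rs G Bᶜ).Reachable r a ∧ a ∉ B ∧ ∃ b' ∈ B, G.Adj b' a := by
  by_contra hcon
  push Not at hcon
  have key : (rs G Bᶜ).Reachable r b ∧ b ∉ B := by
    refine reach_induct (fun w => (rs G Bᶜ).Reachable r w ∧ w ∉ B) hr
      ⟨SimpleGraph.Reachable.refl r, hrB⟩ ?_
    rintro a c - ⟨h1, h2⟩ hac
    have hc : c ∉ B := fun hc => hcon a h1 h2 c hc hac.symm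
    exact ⟨h1.trans (SimpleGraph.Adj.reachable ⟨hac, h2, hc⟩), hc⟩
  exact key.2 hb

/-- data attached to a splitting set `B`: `x` is the least point of `X` in its piece, the piece
touches `B`, there is another piece with a smaller point `y`, and neither piece contains the
root of the component -/
def Good (G : SimpleGraph V) (c : V → ℕ) (X : Finset V) (B : Set V) (x : V) : Prop :=
  x ∈ X ∧
  (∃ a, a ∉ B ∧ (∃ b ∈ B, G.Adj b a) ∧ (rs G Bᶜ).Reachable a x) ∧
  (∀ y ∈ X, (rs G Bᶜ).Reachable x y → c x ≤ c y) ∧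
  ∃ y ∈ X, c y < c x ∧ (∃ a, a ∉ B ∧ (∃ b ∈ B, G.Adj b a) ∧ (rs G Bᶜ).Reachable a y) ∧
    (∀ r ∈ X, (∀ z ∈ X, G.Reachable r z → c r ≤ c z) → G.Reachable x r →
      ¬ (rs G Bᶜ).Reachable x r ∧ ¬ (rs G Bᶜ).Reachable y r)

lemma good_inj_aux {G : SimpleGraph V} {c : V → ℕ} {X : Finset V} {B C : Set V} {x : V}
    (hdisj : Disjoint B C)
    (hB : ∀ u ∈ B, ∀ v ∈ B, (rs G B).Reachable u v)
    (hC : ∀ u ∈ C, ∀ v ∈ C, (rs G C).Reachable u v)
    (hXB : ∀ z ∈ X, z ∉ B)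
    (h1 : Good G c X B x) (h2 : Good G c X C x)
    {v : V} (hv : v ∈ C) (hxv : (rs G Bᶜ).Reachable x v) : False := by
  obtain ⟨hxX, hx1, hmin1, y1, hy1X, hy1, -, hroot1⟩ := h1
  obtain ⟨-, hx2, -, y, hyX, hyx, ⟨a', ha'C, ⟨b', hb'C, hb'a'⟩, ha'y⟩, hroot2⟩ := h2
  have hBC : ∀ w, w ∈ B → w ∉ C := fun w h h' => Set.disjoint_left.1 hdisj h h'
  have hCB : ∀ w, w ∈ C → w ∉ B := fun w h h' => Set.disjoint_left.1 hdisj h' h
  have hBmono : rs G B ≤ rs G Cᶜ := rs_mono fun w h => hBC w h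
  have hCmono : rs G C ≤ rs G Bᶜ := rs_mono fun w h => hCB w h
  -- the root of the component of `x`
  obtain ⟨r, hrX, hxr, hrmin⟩ : ∃ r ∈ X, G.Reachable x r ∧ ∀ z ∈ X, G.Reachable r z → c r ≤ c z := by
    classical
    obtain ⟨r, hr, hmin⟩ := Finset.exists_min_image (X.filter fun z => G.Reachable x z) c
      ⟨x, Finset.mem_filter.2 ⟨hxX, SimpleGraph.Reachable.refl x⟩⟩
    rw [Finset.mem_filter] at hr
    exact ⟨r, hr.1, hr.2, fun z hz hrz => hmin z (Finset.mem_filter.2 ⟨hz, hr.2.trans hrz⟩)⟩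
  have hr1 := (hroot1 r hrX hrmin hxr).1
  have hr2 := (hroot2 r hrX hrmin hxr).2
  -- the piece of `y` off `C` avoids `B`
  have hav : ∀ w, (rs G Cᶜ).Reachable y w → w ∉ B := by
    intro w hyw hwB
    obtain ⟨a, ha, ⟨b, hb, hba⟩, hax⟩ := hx1
    have hrb : G.Reachable r b :=
      hxr.symm.trans ((reach_mono (rs_le G _) hax).symm.trans hba.symm.reachable)
    obtain ⟨a2, hra2, ha2, b2, hb2, hba2⟩ := first_hit hrb hb (hXB r hrX)
    have hrC : ∀ w, (rs G Bᶜ).Reachable r w → w ∉ C := by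
      intro w hrw hwC
      exact hr1 (hxv.trans ((reach_mono hCmono (hC v hv w hwC)).trans hrw.symm))
    have h3 : (rs G Cᶜ).Reachable r a2 := reach_swap hra2 hrC
    have h4 : (rs G Cᶜ).Reachable a2 b2 :=
      SimpleGraph.Adj.reachable ⟨hba2.symm, hrC a2 hra2, hBC b2 hb2⟩
    have h5 : (rs G Cᶜ).Reachable b2 w := reach_mono hBmono (hB b2 hb2 w hwB)
    exact hr2 (hyw.trans (h3.trans (h4.trans h5)).symm)
  have h6 : (rs G Bᶜ).Reachable y a' := reach_swap ha'y.symm hav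
  have h7 : (rs G Bᶜ).Reachable a' b' :=
    SimpleGraph.Adj.reachable ⟨hb'a'.symm, hav a' ha'y.symm, hCB b' hb'C⟩
  have h8 : (rs G Bᶜ).Reachable b' v := reach_mono hCmono (hC b' hb'C v hv)
  have h9 := hmin1 y hyX (hxv.trans (h6.trans (h7.trans h8)).symm)
  omega

lemma good_inj {G : SimpleGraph V} {c : V → ℕ} {X : Finset V} {B C : Set V} {x : V}
    (hdisj : Disjoint B C)
    (hB : ∀ u ∈ B, ∀ v ∈ B, (rs G B).Reachable u v)
    (hC : ∀ u ∈ C, ∀ v ∈ C, (rs G C).Reachable u v)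
    (hXB : ∀ z ∈ X, z ∉ B) (hXC : ∀ z ∈ X, z ∉ C)
    (h1 : Good G c X B x) (h2 : Good G c X C x) : False := by
  by_cases hc1 : ∃ v ∈ C, (rs G Bᶜ).Reachable x v
  · obtain ⟨v, hv, hxv⟩ := hc1
    exact good_inj_aux hdisj hB hC hXB h1 h2 hv hxv
  by_cases hc2 : ∃ v ∈ B, (rs G Cᶜ).Reachable x v
  · obtain ⟨v, hv, hxv⟩ := hc2
    exact good_inj_aux hdisj.symm hC hB hXC h2 h1 hv hxv
  push Not at hc1 hc2
  obtain ⟨-, ⟨a, ha, ⟨b, hb, hba⟩, hax⟩, -⟩ := h1
  have hav : ∀ w, (rs G Bᶜ).Reachable x w → w ∉ C := fun w hw hwC => hc1 w hwC hw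
  have h3 : (rs G Cᶜ).Reachable x a := reach_swap hax.symm hav
  refine hc2 b hb (h3.trans (SimpleGraph.Adj.reachable ⟨hba.symm, hav a hax.symm, ?_⟩))
  exact fun h => Set.disjoint_left.1 hdisj hb h

lemma good_exists {G : SimpleGraph V} {c : V → ℕ} (hc : Function.Injective c) {X : Finset V}
    {B : Set V} (hB : ∀ u ∈ B, ∀ v ∈ B, (rs G B).Reachable u v)
    (a : Fin 3 → V) (ha : ∀ k, a k ∉ B) (hadj : ∀ k, ∃ b ∈ B, G.Adj b (a k))
    (hreach : ∀ k, ∃ x ∈ X, (rs G Bᶜ).Reachable (a k) x)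
    (hsep : ∀ k l, k ≠ l → ¬ (rs G Bᶜ).Reachable (a k) (a l)) :
    ∃ x, Good G c X B x := by
  classical
  -- least point of `X` in each piece
  have hmin : ∀ k, ∃ x ∈ X, (rs G Bᶜ).Reachable (a k) x ∧
      ∀ y ∈ X, (rs G Bᶜ).Reachable x y → c x ≤ c y := by
    intro k
    obtain ⟨x0, hx0, hax0⟩ := hreach k
    obtain ⟨x, hx, hmin⟩ := Finset.exists_min_image
      (X.filter fun z => (rs G Bᶜ).Reachable (a k) z) c ⟨x0, Finset.mem_filter.2 ⟨hx0, hax0⟩⟩
    rw [Finset.mem_filter] at hx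
    exact ⟨x, hx.1, hx.2, fun y hy hxy => hmin y (Finset.mem_filter.2 ⟨hy, hx.2.trans hxy⟩)⟩
  choose x hxX hax hxmin using hmin
  have hsepx : ∀ k l, k ≠ l → ¬ (rs G Bᶜ).Reachable (x k) (x l) := by
    intro k l hkl h
    exact hsep k l hkl ((hax k).trans (h.trans (hax l).symm))
  -- a piece containing a root
  set R : Fin 3 → Prop := fun k => ∃ r ∈ X, (∀ z ∈ X, G.Reachable r z → c r ≤ c z) ∧
    (rs G Bᶜ).Reachable (x k) r with hR
  have hRuniq : ∀ k l, k ≠ l → R k → ¬ R l := by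
    rintro k l hkl ⟨r, hrX, hrmin, hxr⟩ ⟨r', hrX', hrmin', hxr'⟩
    obtain ⟨b, hb, hba⟩ := hadj k
    obtain ⟨b', hb', hba'⟩ := hadj l
    have h1 : G.Reachable r r' := by
      have e1 : G.Reachable r (x k) := (reach_mono (rs_le G _) hxr).symm
      have e2 : G.Reachable (x k) (a k) := (reach_mono (rs_le G _) (hax k)).symm
      have e3 : G.Reachable (a k) b := hba.symm.reachable
      have e4 : G.Reachable b b' := reach_mono (rs_le G _) (hB b hb b' hb')
      have e5 : G.Reachable b' (a l) := hba'.reachable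
      have e6 : G.Reachable (a l) (x l) := reach_mono (rs_le G _) (hax l)
      have e7 : G.Reachable (x l) r' := reach_mono (rs_le G _) hxr'
      exact e1.trans (e2.trans (e3.trans (e4.trans (e5.trans (e6.trans e7)))))
    have h2 : r = r' := hc (le_antisymm (hrmin r' hrX' h1) (hrmin' r hrX h1.symm))
    subst h2
    exact hsepx k l hkl (hxr.trans hxr'.symm)
  obtain ⟨k, l, hkl, hk, hl⟩ : ∃ k l : Fin 3, k ≠ l ∧ ¬ R k ∧ ¬ R l := by
    by_cases h0 : R 0
    · exact ⟨1, 2, by decide, hRuniq 0 1 (by decide) h0, hRuniq 0 2 (by decide) h0⟩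
    by_cases h1 : R 1
    · exact ⟨0, 2, by decide, h0, hRuniq 1 2 (by decide) h1⟩
    exact ⟨0, 1, by decide, h0, h1⟩
  have main : ∀ k l : Fin 3, c (x l) < c (x k) → ¬ R k → ¬ R l → Good G c X B (x k) := by
    intro k l hlt hk hl
    refine ⟨hxX k, ⟨a k, ha k, hadj k, hax k⟩, hxmin k, x l, hxX l, hlt,
      ⟨a l, ha l, hadj l, hax l⟩, ?_⟩
    intro r hr hrmin _
    exact ⟨fun h => hk ⟨r, hr, hrmin, h⟩, fun h => hl ⟨r, hr, hrmin, h⟩⟩
  rcases lt_trichotomy (c (x k)) (c (x l)) with h | h | h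
  · exact ⟨x l, main l k h hl hk⟩
  · exact absurd (hc h ▸ SimpleGraph.Reachable.refl (x k)) (hsepx k l hkl)
  · exact ⟨x k, main k l h hk hl⟩

theorem tri_count {G : SimpleGraph V} {c : V → ℕ} (hc : Function.Injective c) {X : Finset V}
    {ι : Type*} {J : Finset ι} {B : ι → Set V}
    (hdisj : ∀ i ∈ J, ∀ j ∈ J, i ≠ j → Disjoint (B i) (B j))
    (hconn : ∀ j ∈ J, ∀ u ∈ B j, ∀ v ∈ B j, (rs G (B j)).Reachable u v)
    (hXB : ∀ j ∈ J, ∀ z ∈ X, z ∉ B j)
    (htri : ∀ j ∈ J, ∃ a : Fin 3 → V, (∀ k, a k ∉ B j) ∧ (∀ k, ∃ b ∈ B j, G.Adj b (a k)) ∧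
      (∀ k, ∃ x ∈ X, (rs G (B j)ᶜ).Reachable (a k) x) ∧
      (∀ k l, k ≠ l → ¬ (rs G (B j)ᶜ).Reachable (a k) (a l))) :
    J.card ≤ X.card := by
  classical
  have h : ∀ j ∈ J, ∃ x, Good G c X (B j) x := by
    intro j hj
    obtain ⟨a, h1, h2, h3, h4⟩ := htri j hj
    exact good_exists hc (hconn j hj) a h1 h2 h3 h4
  rcases J.eq_empty_or_nonempty with rfl | ⟨j0, hj0⟩
  · simp
  have : Nonempty V := ⟨(h j0 hj0).choose⟩
  choose! f hf using h
  refine Finset.card_le_card_of_injOn f (fun j hj => (hf j hj).1) ?_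
  intro i hi j hj hij
  by_contra hne
  have h1 := hf i hi
  have h2 := hf j hj
  rw [hij] at h1
  exact good_inj (hdisj i hi j hj hne) (hconn i hi) (hconn j hj) (hXB i hi) (hXB j hj) h1 h2

end Pool.Agent.H38.BK
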