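import Pool.Agent.H47.GM.Aut
import Pool.Agent.H38.BK.Tri
import Pool.Agent.H38.BK.Tol

/-!
# Burton-Keane: geometry of clusters
-/

open MeasureTheory Filter Topology
open Pool.Agent.H17.IIC Pool.Agent.H41.QC Pool.Agent.H47.GM

namespace Pool.Agent.H38.BK

variable {d : ℕ}

lemma gr_lat {κ : Kind} {ω : El d → Bool} {u v : V d} (h : (Gr κ ω).Adj u v) : LatAdj u v := h.1

lemma gr_mono {κ : Kind} {ω ω' : El d → Bool} (h : ∀ e, ω e = true → ω' e = true) :
    Gr κ ω ≤ Gr κ ω' := by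
  rintro u v ⟨h1, h2⟩
  refine ⟨h1, ?_⟩
  cases κ
  · exact h _ h2
  · exact ⟨h _ h2.1, h _ h2.2⟩

lemma rs_congr {κ : Kind} {ω ω' : El d → Bool} {S : Set (V d)}
    (h : ∀ u ∈ S, ∀ v ∈ S, ω s(u, v) = ω' s(u, v)) : rs (Gr κ ω) S = rs (Gr κ ω') S := by
  have key : ∀ ω ω' : El d → Bool, (∀ u ∈ S, ∀ v ∈ S, ω s(u, v) = ω' s(u, v)) →
      rs (Gr κ ω) S ≤ rs (Gr κ ω') S := by
    rintro ω ω' h u v ⟨⟨h1, h2⟩, hu, hv⟩
    refine ⟨⟨h1, ?_⟩, hu, hv⟩
    cases κ
    · show ω' s(u, v) = true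
      rw [← h u hu v hv]; exact h2
    · refine ⟨?_, ?_⟩
      · rw [← h u hu u hu]; exact h2.1
      · rw [← h v hv v hv]; exact h2.2
  exact le_antisymm (key ω ω' h) (key ω' ω fun u hu v hv => (h u hu v hv).symm)

lemma gr_tr {κ : Kind} {φ : V d ≃ V d} (hφ : IsAut φ) (ω : El d → Bool) {u v : V d} :
    (Gr κ (tr φ ω)).Adj u v ↔ (Gr κ ω).Adj (φ u) (φ v) := by
  unfold Gr
  simp only
  rw [hφ.adj]
  refine and_congr_right fun _ => ?_
  cases κ
  · rfl
  · rfl

lemma reach_tr {κ : Kind} {φ : V d ≃ V d} (hφ : IsAut φ) (ω : El d → Bool) {S S' : Set (V d)}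
    (hS : ∀ u, φ u ∈ S' ↔ u ∈ S) {u v : V d} :
    (rs (Gr κ (tr φ ω)) S).Reachable u v ↔ (rs (Gr κ ω) S').Reachable (φ u) (φ v) := by
  let e : rs (Gr κ (tr φ ω)) S ≃g rs (Gr κ ω) S' :=
    { toEquiv := φ
      map_rel_iff' := by
        intro a b
        rw [rs_adj, rs_adj, gr_tr hφ, hS, hS] }
  exact (e.reachable_iff (u := u) (v := v)).symm

lemma reach_tr' {κ : Kind} {φ : V d ≃ V d} (hφ : IsAut φ) (ω : El d → Bool) {u v : V d} :
    (Gr κ (tr φ ω)).Reachable u v ↔ (Gr κ ω).Reachable (φ u) (φ v) := by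
  let e : Gr κ (tr φ ω) ≃g Gr κ ω :=
    { toEquiv := φ
      map_rel_iff' := by
        intro a b
        exact (gr_tr hφ ω).symm }
  exact (e.reachable_iff (u := u) (v := v)).symm

/-- the sphere of radius `M` -/
noncomputable def sph (d M : ℕ) : Finset (V d) :=
  open Classical in (Bx (0 : V d) M).filter fun x => ∃ i, |x i| = M

lemma mem_sph {M : ℕ} {x : V d} : x ∈ sph d M ↔ x ∈ Bx (0 : V d) M ∧ ∃ i, |x i| = M := by
  classical
  unfold sph
  rw [Finset.mem_filter]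

lemma mem_Bx0 {M : ℕ} {x : V d} : x ∈ Bx (0 : V d) M ↔ ∀ i, |x i| ≤ M := by
  rw [mem_Bx]
  simp

/-- leaving a box -/
lemma exit {G : SimpleGraph (V d)} (hG : ∀ u v, G.Adj u v → LatAdj u v) {M : ℕ} {a z : V d}
    (ha : a ∈ Bx (0 : V d) M) (hz : z ∉ Bx (0 : V d) M) (hr : G.Reachable a z) :
    ∃ x ∈ sph d M, (rs G (Bx (0 : V d) M)).Reachable a x := by
  obtain ⟨w⟩ := hr
  induction w with
  | nil => exact absurd ha hz
  | @cons a b c hab p ih =>
    by_cases hs : a ∈ sph d M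
    · exact ⟨a, hs, SimpleGraph.Reachable.refl a⟩
    have hb : b ∈ Bx (0 : V d) M := by
      rw [mem_Bx0]
      intro i
      have h1 := (mem_Bx0.1 ha) i
      have h2 : |a i| ≠ M := fun h => hs (mem_sph.2 ⟨ha, i, h⟩)
      have h3 := LatAdj.abs_le (hG a b hab) i
      have h4 : |a i| < M := lt_of_le_of_ne h1 h2
      have h5 : |b i| ≤ |a i| + |a i - b i| := by
        have := abs_sub_abs_le_abs_sub (b i) (a i)
        rw [abs_sub_comm] at this
        linarith
      linarith [Int.le_sub_one_of_lt h4]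
    obtain ⟨x, hx, hbx⟩ := ih hb hz
    exact ⟨x, hx, (SimpleGraph.Adj.reachable (G := rs G (Bx (0 : V d) M))
      ⟨hab, Finset.mem_coe.2 ha, Finset.mem_coe.2 hb⟩).trans hbx⟩

lemma exists_box (S : Finset (V d)) : ∃ n : ℕ, ∀ x ∈ S, x ∈ Bx (0 : V d) n := by
  classical
  refine ⟨S.sup fun x => Finset.univ.sup fun i => (x i).natAbs, ?_⟩
  intro x hx
  rw [mem_Bx0]
  intro i
  have h1 : (x i).natAbs ≤ Finset.univ.sup fun i => (x i).natAbs :=
    Finset.le_sup (f := fun i => (x i).natAbs) (Finset.mem_univ i)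
  have h2 : (Finset.univ.sup fun i => (x i).natAbs) ≤
      S.sup fun x => Finset.univ.sup fun i => (x i).natAbs :=
    Finset.le_sup (f := fun x : V d => Finset.univ.sup fun i => (x i).natAbs) hx
  have h3 := h1.trans h2
  rw [Int.abs_eq_natAbs]
  exact_mod_cast h3

lemma exists_outside {S : Set (V d)} (h : S.Infinite) (M : ℕ) : ∃ z ∈ S, z ∉ Bx (0 : V d) M := by
  by_contra hcon
  push Not at hcon
  exact h ((Bx (0 : V d) M).finite_toSet.subset fun z hz => Finset.mem_coe.2 (hcon z hz))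

/-- the cluster of `x` is infinite -/
def Inf (κ : Kind) (ω : El d → Bool) (x : V d) : Prop := {y | (Gr κ ω).Reachable x y}.Infinite

lemma inf_congr {κ : Kind} {ω : El d → Bool} {x y : V d} (h : (Gr κ ω).Reachable x y)
    (hx : Inf κ ω x) : Inf κ ω y := by
  refine Set.Infinite.mono ?_ hx
  intro z hz
  exact h.symm.trans hz

/-- an infinite cluster meeting the box `B` has an infinite piece off `B` which touches `B` -/
lemma split_off {G : SimpleGraph (V d)} (hG : ∀ u v, G.Adj u v → LatAdj u v) {n : ℕ} {x c : V d}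
    (hx : x ∈ Bx c n) (hinf : {y | G.Reachable x y}.Infinite) :
    ∃ a, a ∉ (Bx c n : Set (V d)) ∧ (∃ b ∈ (Bx c n : Set (V d)), G.Adj b a) ∧ G.Reachable x a ∧
      {y | (rs G (Bx c n : Set (V d))ᶜ).Reachable a y}.Infinite := by
  classical
  by_contra hcon
  push Not at hcon
  apply hinf
  set S : Finset (V d) := (Bx c (n + 1)).filter fun a => a ∉ (Bx c n : Set (V d)) ∧
    (∃ b ∈ (Bx c n : Set (V d)), G.Adj b a) ∧ G.Reachable x a with hS
  have hfin : ((Bx c n : Set (V d)) ∪ ⋃ a ∈ S, {y | (rs G (Bx c n : Set (V d))ᶜ).Reachable a y}).Finite := by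
    refine (Bx c n).finite_toSet.union ?_
    refine Set.Finite.biUnion S.finite_toSet ?_
    intro a ha
    rw [Finset.mem_coe, hS, Finset.mem_filter] at ha
    obtain ⟨-, h1, ⟨b, hb, hba⟩, h3⟩ := ha
    exact hcon a h1 ⟨b, hb, hba⟩ h3
  refine hfin.subset ?_
  intro y hy
  by_cases hyB : y ∈ (Bx c n : Set (V d))
  · exact Or.inl hyB
  right
  obtain ⟨a, hya, haB, b, hb, hba⟩ := first_hit (B := (Bx c n : Set (V d))) hy.symm
    (Finset.mem_coe.2 hx) hyB
  rw [Set.mem_iUnion₂]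
  refine ⟨a, ?_, hya.symm⟩
  rw [hS, Finset.mem_filter]
  refine ⟨?_, haB, ⟨b, hb, hba⟩, ?_⟩
  · rw [mem_Bx]
    intro i
    have h1 := (mem_Bx.1 (Finset.mem_coe.1 hb)) i
    have h2 := LatAdj.abs_le (hG b a hba) i
    have h3 : |a i - c i| ≤ |b i - c i| + |b i - a i| := by
      have : a i - c i = (b i - c i) - (b i - a i) := by ring
      rw [this]
      exact abs_sub _ _
    push_cast
    linarith
  · exact hy.trans (reach_mono (rs_le G _) hya)

/-- three infinite clusters meeting the box of radius `n` -/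
def Three (κ : Kind) (n : ℕ) (ω : El d → Bool) : Prop :=
  ∃ x : Fin 3 → V d, (∀ k, x k ∈ Bx (0 : V d) n) ∧ (∀ k, Inf κ ω (x k)) ∧
    ∀ k l, k ≠ l → ¬ (Gr κ ω).Reachable (x k) (x l)

/-- the splitting event for the box of radius `n` at `z` -/
def TriE (κ : Kind) (n : ℕ) (z : V d) (ω : El d → Bool) : Prop :=
  (∀ u ∈ (Bx z n : Set (V d)), ∀ v ∈ (Bx z n : Set (V d)),
    (rs (Gr κ ω) (Bx z n : Set (V d))).Reachable u v) ∧
  ∃ a : Fin 3 → V d, (∀ k, a k ∉ (Bx z n : Set (V d))) ∧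
    (∀ k, ∃ b ∈ (Bx z n : Set (V d)), (Gr κ ω).Adj b (a k)) ∧
    (∀ k, {y | (rs (Gr κ ω) (Bx z n : Set (V d))ᶜ).Reachable (a k) y}.Infinite) ∧
    ∀ k l, k ≠ l → ¬ (rs (Gr κ ω) (Bx z n : Set (V d))ᶜ).Reachable (a k) (a l)

/-- elements touching the box -/
noncomputable def elB (d n : ℕ) : Finset (El d) :=
  open Classical in ((Bx (0 : V d) n) ×ˢ (Bx (0 : V d) (n + 1))).image fun q => s(q.1, q.2)

lemma mem_elB {n : ℕ} {u v : V d} (hu : u ∈ Bx (0 : V d) n) (hv : v ∈ Bx (0 : V d) (n + 1)) :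
    s(u, v) ∈ elB d n := by
  classical
  unfold elB
  rw [Finset.mem_image]
  exact ⟨(u, v), Finset.mem_product.2 ⟨hu, hv⟩, rfl⟩

lemma notMem_elB {n : ℕ} {u v : V d} (hu : u ∉ Bx (0 : V d) n) (hv : v ∉ Bx (0 : V d) n) :
    s(u, v) ∉ elB d n := by
  classical
  unfold elB
  rw [Finset.mem_image]
  rintro ⟨⟨a, b⟩, hq, hab⟩
  rw [Finset.mem_product] at hq
  simp only at hab hq
  rw [Sym2.eq_iff] at hab
  rcases hab with ⟨rfl, -⟩ | ⟨rfl, -⟩
  · exact hu hq.1
  · exact hv hq.1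

lemma Bx_succ {n : ℕ} {v : V d} (h : v ∈ Bx (0 : V d) n) : v ∈ Bx (0 : V d) (n + 1) := by
  rw [mem_Bx0] at h ⊢
  intro i
  have := h i
  push_cast
  linarith

lemma rs_opn (κ : Kind) (n : ℕ) (ω : El d → Bool) :
    rs (Gr κ (opn (elB d n) ω)) (Bx (0 : V d) n : Set (V d))ᶜ =
      rs (Gr κ ω) (Bx (0 : V d) n : Set (V d))ᶜ := by
  apply rs_congr
  intro u hu v hv
  exact opn_notMem (notMem_elB (fun h => hu (Finset.mem_coe.2 h)) (fun h => hv (Finset.mem_coe.2 h)))

lemma gr_le_opn (κ : Kind) (n : ℕ) (ω : El d → Bool) : Gr κ ω ≤ Gr κ (opn (elB d n) ω) :=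
  gr_mono fun _ h => opn_ge h

lemma box_conn (κ : Kind) (n : ℕ) (ω : El d → Bool) :
    ∀ u ∈ (Bx (0 : V d) n : Set (V d)), ∀ v ∈ (Bx (0 : V d) n : Set (V d)),
      (rs (Gr κ (opn (elB d n) ω)) (Bx (0 : V d) n : Set (V d))).Reachable u v := by
  intro u hu v hv
  obtain ⟨w, -, hw⟩ := exists_walk u v
  have hsup : ∀ z ∈ w.support, z ∈ Bx (0 : V d) n := by
    intro z hz
    rw [mem_Bx0]
    intro i
    have h1 := hw z hz i
    have h2 := (mem_Bx0.1 (Finset.mem_coe.1 hu)) i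
    have h3 := (mem_Bx0.1 (Finset.mem_coe.1 hv)) i
    rw [abs_le] at h2 h3 ⊢
    omega
  clear hw hu hv
  induction w with
  | nil => exact SimpleGraph.Reachable.refl _
  | @cons a b c hab p ih =>
    have ha : a ∈ Bx (0 : V d) n :=
      hsup a (by rw [SimpleGraph.Walk.support_cons]; exact List.mem_cons_self)
    have hb : b ∈ Bx (0 : V d) n := hsup b (by
      rw [SimpleGraph.Walk.support_cons]
      exact List.mem_cons_of_mem _ p.start_mem_support)
    refine (SimpleGraph.Adj.reachable ?_).trans (ih fun z hz => hsup z (by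
      rw [SimpleGraph.Walk.support_cons]; exact List.mem_cons_of_mem _ hz))
    refine ⟨⟨hab, ?_⟩, Finset.mem_coe.2 ha, Finset.mem_coe.2 hb⟩
    cases κ
    · exact opn_mem (mem_elB ha (Bx_succ hb))
    · exact ⟨opn_mem (mem_elB ha (Bx_succ ha)), opn_mem (mem_elB hb (Bx_succ hb))⟩

/-- opening the box turns three infinite clusters into a splitting box -/
theorem three_opn {κ : Kind} {n : ℕ} {ω : El d → Bool} (h : Three κ n ω) :
    TriE κ n 0 (opn (elB d n) ω) := by
  obtain ⟨x, hx, hinf, hsep⟩ := h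
  refine ⟨box_conn κ n ω, ?_⟩
  have h1 := fun k => split_off (G := Gr κ ω) (fun u v h => gr_lat h) (hx k) (hinf k)
  choose a ha1 ha2 ha3 ha4 using h1
  refine ⟨a, ha1, ?_, ?_, ?_⟩
  · intro k
    obtain ⟨b, hb, hba⟩ := ha2 k
    exact ⟨b, hb, gr_le_opn κ n ω hba⟩
  · intro k
    rw [rs_opn]
    exact ha4 k
  · intro k l hkl h
    rw [rs_opn] at h
    exact hsep k l hkl ((ha3 k).trans ((reach_mono (rs_le _ _) h).trans (ha3 l).symm))

/-- two distinct infinite clusters -/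
def Two (κ : Kind) (ω : El d → Bool) : Prop :=
  ∃ x y : V d, Inf κ ω x ∧ Inf κ ω y ∧ ¬ (Gr κ ω).Reachable x y

/-- if there are always two infinite clusters after opening a box, there are three -/
theorem three_of_two {κ : Kind} {ω : El d → Bool} (h0 : Two κ ω)
    (h : ∀ n, Two κ (opn (elB d n) ω)) : ∃ n, Three κ n ω := by
  classical
  obtain ⟨x, y, hx, hy, hxy⟩ := h0
  by_cases hthird : ∃ u, Inf κ ω u ∧ ¬ (Gr κ ω).Reachable x u ∧ ¬ (Gr κ ω).Reachable y u
  · obtain ⟨u, hu, hxu, hyu⟩ := hthird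
    obtain ⟨n, hn⟩ := exists_box ({x, y, u} : Finset (V d))
    refine ⟨n, ![x, y, u], ?_, ?_, ?_⟩
    · intro k
      fin_cases k
      · exact hn x (by simp)
      · exact hn y (by simp)
      · exact hn u (by simp)
    · intro k
      fin_cases k
      · exact hx
      · exact hy
      · exact hu
    · intro k l hkl
      fin_cases k <;> fin_cases l <;> first | exact absurd rfl hkl | skip
      · exact hxy
      · exact hxu
      · exact fun h => hxy h.symm
      · exact hyu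
      · exact fun h => hxu h.symm
      · exact fun h => hyu h.symm
  exfalso
  push Not at hthird
  obtain ⟨n, hn⟩ := exists_box ({x, y} : Finset (V d))
  have hxn := hn x (by simp)
  have hyn := hn y (by simp)
  obtain ⟨x', y', hx', hy', hxy'⟩ := h n
  have key : ∀ u, Inf κ (opn (elB d n) ω) u →
      ∃ b ∈ Bx (0 : V d) n, (Gr κ (opn (elB d n) ω)).Reachable u b := by
    intro u hu
    by_contra hcon
    push Not at hcon
    have h1 : ∀ z, (Gr κ (opn (elB d n) ω)).Reachable u z → (Gr κ ω).Reachable u z := by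
      intro z hz
      refine reach_induct (fun z => (Gr κ ω).Reachable u z) hz (SimpleGraph.Reachable.refl u) ?_
      intro a b hua hP hab
      have ha : a ∉ Bx (0 : V d) n := fun h => hcon a h hua
      have hb : b ∉ Bx (0 : V d) n := fun h => hcon b h (hua.trans hab.reachable)
      have h2 : (rs (Gr κ (opn (elB d n) ω)) (Bx (0 : V d) n : Set (V d))ᶜ).Adj a b :=
        ⟨hab, fun h => ha (Finset.mem_coe.1 h), fun h => hb (Finset.mem_coe.1 h)⟩
      rw [rs_opn] at h2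
      exact hP.trans h2.1.reachable
    have h2 : Inf κ ω u := hu.mono fun z hz => h1 z hz
    by_cases hxu : (Gr κ ω).Reachable x u
    · exact hcon x hxn (reach_mono (gr_le_opn κ n ω) hxu).symm
    · exact hcon y hyn (reach_mono (gr_le_opn κ n ω) (hthird u h2 hxu)).symm
  obtain ⟨b, hb, hxb⟩ := key x' hx'
  obtain ⟨b', hb', hyb⟩ := key y' hy'
  exact hxy' (hxb.trans ((reach_mono (rs_le _ _)
    (box_conn κ n ω b (Finset.mem_coe.2 hb) b' (Finset.mem_coe.2 hb'))).trans hyb.symm))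

end Pool.Agent.H38.BK
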