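import Pool.Agent.H47.GM.Erg
import Pool.Agent.H38.BK.Geo

/-!
# Burton-Keane: if two infinite clusters coexist with positive probability, they do so almost surely
-/

open MeasureTheory Filter Topology
open Pool.Agent.H17.IIC Pool.Agent.H41.QC Pool.Agent.H47.GM

namespace Pool.Agent.H38.BK

variable {d : ℕ}

lemma rs_box_mono {G : SimpleGraph (V d)} {m n : ℕ} (h : m ≤ n) :
    rs G (Bx (0 : V d) m) ≤ rs G (Bx (0 : V d) n) := by
  apply rs_mono
  intro x hx
  rw [Finset.mem_coe, mem_Bx0] at hx ⊢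
  intro i
  have := hx i
  have h2 : (m : ℤ) ≤ n := by exact_mod_cast h
  linarith

/-- a path stays in a box -/
lemma reach_box {G : SimpleGraph (V d)} {x y : V d} (h : G.Reachable x y) :
    ∃ m : ℕ, (rs G (Bx (0 : V d) m)).Reachable x y := by
  classical
  refine reach_induct (fun y => ∃ m : ℕ, (rs G (Bx (0 : V d) m)).Reachable x y) h
    ⟨0, SimpleGraph.Reachable.refl x⟩ ?_
  rintro a b - ⟨m, hm⟩ hab
  obtain ⟨n, hn⟩ := exists_box ({a, b} : Finset (V d))
  refine ⟨max m n, ?_⟩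
  have h1 := reach_mono (rs_box_mono (G := G) (le_max_left m n)) hm
  refine h1.trans (reach_mono (rs_box_mono (G := G) (le_max_right m n)) ?_)
  exact SimpleGraph.Adj.reachable ⟨hab, Finset.mem_coe.2 (hn a (by simp)),
    Finset.mem_coe.2 (hn b (by simp))⟩

/-- the local version of two infinite clusters -/
def LTwo (κ : Kind) (x y : V d) (M : ℕ) (ω : El d → Bool) : Prop :=
  (∃ z ∈ sph d M, (rs (Gr κ ω) (Bx (0 : V d) M)).Reachable x z) ∧
  (∃ z ∈ sph d M, (rs (Gr κ ω) (Bx (0 : V d) M)).Reachable y z) ∧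
  ¬ (rs (Gr κ ω) (Bx (0 : V d) M)).Reachable x y

/-- elements inside the box -/
noncomputable def elI (d M : ℕ) : Finset (El d) :=
  open Classical in ((Bx (0 : V d) M) ×ˢ (Bx (0 : V d) M)).image fun q => s(q.1, q.2)

lemma mem_elI {M : ℕ} {u v : V d} (hu : u ∈ Bx (0 : V d) M) (hv : v ∈ Bx (0 : V d) M) :
    s(u, v) ∈ elI d M := by
  classical
  unfold elI
  rw [Finset.mem_image]
  exact ⟨(u, v), Finset.mem_product.2 ⟨hu, hv⟩, rfl⟩

lemma elI_mono {m n : ℕ} (h : m ≤ n) : elI d m ⊆ elI d n := by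
  classical
  unfold elI
  apply Finset.image_subset_image
  have : Bx (0 : V d) m ⊆ Bx (0 : V d) n := by
    intro x hx
    rw [mem_Bx0] at hx ⊢
    intro i
    have := hx i
    have h2 : (m : ℤ) ≤ n := by exact_mod_cast h
    linarith
  exact Finset.product_subset_product this this

lemma rs_elI {κ : Kind} {M : ℕ} {ω ω' : El d → Bool}
    (h : ∀ e ∈ (elI d M : Set (El d)), ω e = ω' e) :
    rs (Gr κ ω) (Bx (0 : V d) M : Set (V d)) = rs (Gr κ ω') (Bx (0 : V d) M : Set (V d)) :=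
  rs_congr fun u hu v hv => h _ (Finset.mem_coe.2 (mem_elI (Finset.mem_coe.1 hu) (Finset.mem_coe.1 hv)))

lemma ltwo_of_two {κ : Kind} {ω : El d → Bool} {x y : V d} {M : ℕ} (hxM : x ∈ Bx (0 : V d) M)
    (hyM : y ∈ Bx (0 : V d) M) (hx : Inf κ ω x) (hy : Inf κ ω y)
    (hxy : ¬ (Gr κ ω).Reachable x y) : LTwo κ x y M ω := by
  obtain ⟨z, hz, hz'⟩ := exists_outside hx M
  obtain ⟨w, hw, hw'⟩ := exists_outside hy M
  exact ⟨exit (fun u v h => gr_lat h) hxM hz' hz, exit (fun u v h => gr_lat h) hyM hw' hw,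
    fun h => hxy (reach_mono (rs_le _ _) h)⟩

lemma inf_of_local {κ : Kind} {ω : El d → Bool} {x : V d} {n₀ : ℕ}
    (h : ∀ n : ℕ, ∃ z ∈ sph d (n₀ + n), (rs (Gr κ ω) (Bx (0 : V d) (n₀ + n))).Reachable x z) :
    Inf κ ω x := by
  intro hfin
  obtain ⟨N, hN⟩ := exists_box hfin.toFinset
  obtain ⟨z, hz, hxz⟩ := h (N + 1)
  have h1 : z ∈ Bx (0 : V d) N := hN z (by
    rw [Set.Finite.mem_toFinset]
    exact reach_mono (rs_le _ _) hxz)
  obtain ⟨-, i, hi⟩ := mem_sph.1 hz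
  have h2 := (mem_Bx0.1 h1) i
  rw [hi] at h2
  push_cast at h2
  linarith [Int.natCast_nonneg n₀]

lemma two_of_local {κ : Kind} {ω : El d → Bool} {x y : V d} {n₀ : ℕ}
    (h : ∀ n : ℕ, LTwo κ x y (n₀ + n) ω) : Two κ ω := by
  refine ⟨x, y, inf_of_local fun n => (h n).1, inf_of_local fun n => (h n).2.1, ?_⟩
  intro hxy
  obtain ⟨m, hm⟩ := reach_box hxy
  exact (h m).2.2 (reach_mono (rs_box_mono (by omega)) hm)

lemma inf_tr {κ : Kind} {φ : V d ≃ V d} (hφ : IsAut φ) {ω : El d → Bool} {x : V d}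
    (h : Inf κ (tr φ ω) x) : Inf κ ω (φ x) := by
  have h1 : (φ '' {y | (Gr κ (tr φ ω)).Reachable x y}).Infinite := h.image φ.injective.injOn
  refine h1.mono ?_
  rintro _ ⟨y, hy, rfl⟩
  exact (reach_tr' hφ ω).1 hy

lemma two_tr {κ : Kind} {φ : V d ≃ V d} (hφ : IsAut φ) {ω : El d → Bool}
    (h : Two κ (tr φ ω)) : Two κ ω := by
  obtain ⟨x, y, hx, hy, hxy⟩ := h
  exact ⟨φ x, φ y, inf_tr hφ hx, inf_tr hφ hy, fun h => hxy ((reach_tr' hφ ω).2 h)⟩

/-- the shift -/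
noncomputable def shf (hd : 0 < d) (k : ℕ) (e : El d) : El d :=
  e.map (· + (Pi.single ⟨0, hd⟩ (k : ℤ) : V d))

lemma shf_inj (hd : 0 < d) (k : ℕ) : Function.Injective (shf hd k) :=
  Sym2.map.injective (add_left_injective _)

lemma shf_far (hd : 0 < d) (Λ : Finset (El d)) :
    ∃ M : ℕ, 1 ≤ M ∧ ∀ k l : ℕ, k ≠ l → ∀ i ∈ Λ, ∀ j ∈ Λ, shf hd (M * k) i ≠ shf hd (M * l) j := by
  classical
  have hb : ∃ L : ℕ, ∀ i ∈ Λ, ∀ v ∈ i, |v ⟨0, hd⟩| ≤ L := by
    induction Λ using Finset.induction_on with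
    | empty => exact ⟨0, fun i hi => absurd hi (Finset.notMem_empty i)⟩
    | insert a S _ ih =>
      obtain ⟨L, hL⟩ := ih
      obtain ⟨L', hL'⟩ : ∃ L' : ℕ, ∀ v ∈ a, |v ⟨0, hd⟩| ≤ L' := by
        induction a using Sym2.ind with
        | _ u w =>
          refine ⟨(|u ⟨0, hd⟩| + |w ⟨0, hd⟩|).toNat, ?_⟩
          intro v hv
          rw [Sym2.mem_iff] at hv
          have h1 := abs_nonneg (u ⟨0, hd⟩)
          have h2 := abs_nonneg (w ⟨0, hd⟩)
          rw [Int.toNat_of_nonneg (by linarith)]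
          rcases hv with rfl | rfl <;> linarith
      refine ⟨L + L', ?_⟩
      intro i hi v hv
      rw [Finset.mem_insert] at hi
      push_cast
      rcases hi with rfl | hi
      · have := hL' v hv
        have h0 : (0 : ℤ) ≤ L := Int.natCast_nonneg _
        linarith
      · have := hL i hi v hv
        have h0 : (0 : ℤ) ≤ L' := Int.natCast_nonneg _
        linarith
  obtain ⟨L, hL⟩ := hb
  refine ⟨2 * L + 1, by omega, ?_⟩
  intro k l hkl e hi e' hj heq
  unfold shf at heq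
  obtain ⟨v, hv⟩ : ∃ v, v ∈ e := by
    induction e using Sym2.ind with
    | _ u w => exact ⟨u, Sym2.mem_mk_left u w⟩
  have h3 : v + (Pi.single ⟨0, hd⟩ (((2 * L + 1) * k : ℕ) : ℤ) : V d) ∈
      e'.map (· + (Pi.single ⟨0, hd⟩ (((2 * L + 1) * l : ℕ) : ℤ) : V d)) := by
    rw [← heq]
    rw [Sym2.mem_map]
    exact ⟨v, hv, rfl⟩
  rw [Sym2.mem_map] at h3
  obtain ⟨v', hv', h4⟩ := h3
  have h5 := congrFun h4 ⟨0, hd⟩
  simp only [Pi.add_apply, Pi.single_eq_same] at h5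
  have h6 := hL _ hi v hv
  have h7 := hL _ hj v' hv'
  rw [abs_le] at h6 h7
  have h8 : ((2 * L + 1 : ℕ) : ℤ) * ((l : ℤ) - k) = v ⟨0, hd⟩ - v' ⟨0, hd⟩ := by
    push_cast at h5 ⊢
    linarith
  rcases lt_or_gt_of_ne hkl with h | h
  · have h9 : (1 : ℤ) ≤ (l : ℤ) - k := by omega
    have h10 : ((2 * L + 1 : ℕ) : ℤ) * 1 ≤ ((2 * L + 1 : ℕ) : ℤ) * ((l : ℤ) - k) :=
      mul_le_mul_of_nonneg_left h9 (by positivity)
    rw [h8] at h10
    push_cast at h10
    linarith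
  · have h9 : (1 : ℤ) ≤ (k : ℤ) - l := by omega
    have h10 : ((2 * L + 1 : ℕ) : ℤ) * 1 ≤ ((2 * L + 1 : ℕ) : ℤ) * ((k : ℤ) - l) :=
      mul_le_mul_of_nonneg_left h9 (by positivity)
    have h11 : ((2 * L + 1 : ℕ) : ℤ) * ((k : ℤ) - l) = v' ⟨0, hd⟩ - v ⟨0, hd⟩ := by
      linarith
    rw [h11] at h10
    push_cast at h10
    linarith

theorem two_ae (hd : 0 < d) (κ : Kind) (p : unitInterval)
    (h : ¬ ∀ᵐ ω ∂(prodBern (El d) p), ¬ Two κ ω) : ∀ᵐ ω ∂(prodBern (El d) p), Two κ ω := by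
  -- a pair with positive probability
  obtain ⟨x, y, hxy⟩ : ∃ x y : V d, prodBern (El d) p
      {ω | Inf κ ω x ∧ Inf κ ω y ∧ ¬ (Gr κ ω).Reachable x y} ≠ 0 := by
    by_contra hcon
    push Not at hcon
    apply h
    have h1 : ∀ᵐ ω ∂(prodBern (El d) p), ∀ x y : V d,
        ¬ (Inf κ ω x ∧ Inf κ ω y ∧ ¬ (Gr κ ω).Reachable x y) := by
      rw [ae_all_iff]
      intro x
      rw [ae_all_iff]
      intro y
      rw [ae_iff]
      simpa using hcon x y
    filter_upwards [h1] with ω hω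
    rintro ⟨x, y, hx⟩
    exact hω x y hx
  classical
  obtain ⟨n₀, hn₀⟩ := exists_box ({x, y} : Finset (V d))
  have hbox : ∀ n, x ∈ Bx (0 : V d) (n₀ + n) ∧ y ∈ Bx (0 : V d) (n₀ + n) := by
    intro n
    constructor
    · have := hn₀ x (by simp)
      rw [mem_Bx0] at this ⊢
      intro i
      have := this i
      push_cast
      linarith [Int.natCast_nonneg n]
    · have := hn₀ y (by simp)
      rw [mem_Bx0] at this ⊢
      intro i
      have := this i
      push_cast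
      linarith [Int.natCast_nonneg n]
  set A : ℕ → Set (El d → Bool) := fun n => {ω | ∀ k ≤ n, LTwo κ x y (n₀ + k) ω} with hA
  have hanti : Antitone A := fun m n hmn ω hω k hk => hω k (hk.trans hmn)
  have hdep : ∀ n, ∃ Λ : Finset (El d), On (Λ : Set (El d)) (A n) := by
    intro n
    refine ⟨elI d (n₀ + n), ?_⟩
    intro ω ω' hω
    show (∀ k ≤ n, LTwo κ x y (n₀ + k) ω) ↔ (∀ k ≤ n, LTwo κ x y (n₀ + k) ω')
    refine forall_congr' fun k => forall_congr' fun hk => ?_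
    unfold LTwo
    rw [rs_elI (κ := κ) (M := n₀ + k) (ω := ω) (ω' := ω') fun e he =>
      hω e (elI_mono (by omega) he)]
  have hpos : 0 < (mu (fun _ : El d => p)).real (⋂ n, A n) := by
    rw [mu_const]
    refine lt_of_le_of_ne measureReal_nonneg ?_
    intro h0
    apply hxy
    have h1 : prodBern (El d) p (⋂ n, A n) = 0 :=
      (measureReal_eq_zero_iff (measure_ne_top _ _)).1 h0.symm
    refine measure_mono_null ?_ h1
    rintro ω ⟨h2, h3, h4⟩
    rw [Set.mem_iInter]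
    intro n k _
    exact ltwo_of_two (hbox k).1 (hbox k).2 h2 h3 h4
  have herg := erg (fun _ : El d => p) (shf hd) (shf_inj hd) (fun _ _ => rfl) (shf_far hd) A hanti
    hdep hpos
  rw [mu_const] at herg
  filter_upwards [herg] with ω hω
  obtain ⟨k, hk⟩ := hω
  have h1 : Two κ (tr (Equiv.addRight (Pi.single ⟨0, hd⟩ (k : ℤ) : V d)) ω) :=
    two_of_local fun n => hk n n le_rfl
  exact two_tr (isAut_add _) h1

end Pool.Agent.H38.BK
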