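import Pool.Agent.H38.BK.Count

/-!
# Burton-Keane: uniqueness of the infinite cluster

Bond and site percolation on `ℤ^d`, every `d` and every `p`.
-/

open MeasureTheory Filter Topology
open scoped ENNReal
open Pool.Agent.H17.IIC Pool.Agent.H41.QC Pool.Agent.H47.GM

namespace Pool.Agent.H38.BK

lemma two_null (κ : Kind) {d : ℕ} (hd : 0 < d) {p : unitInterval} (hp : 0 < (p : ℝ)) :
    ∀ᵐ ω ∂(prodBern (El d) p), ¬ Two κ ω := by
  by_contra hcon
  have h1 := two_ae hd κ p hcon
  have h2 := ae_opn_all hp h1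
  have h3 : ∀ᵐ ω ∂(prodBern (El d) p), ∃ n, Three κ n ω := by
    filter_upwards [h1, h2] with ω hω1 hω2
    exact three_of_two hω1 fun n => hω2 (elB d n)
  obtain ⟨n, hn⟩ : ∃ n, prodBern (El d) p {ω | Three κ n ω} ≠ 0 := by
    by_contra hall
    push Not at hall
    have h4 : ∀ᵐ ω ∂(prodBern (El d) p), ∀ n, ¬ Three κ n ω := by
      rw [ae_all_iff]
      intro n
      rw [ae_iff]
      simpa using hall n
    have h5 : ∀ᵐ ω ∂(prodBern (El d) p), False := by
      filter_upwards [h3, h4] with ω hω1 hω2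
      obtain ⟨n, hn⟩ := hω1
      exact hω2 n hn
    rw [ae_iff] at h5
    simp at h5
  have h6 : prodBern (El d) p {ω | TriE κ n 0 ω} ≠ 0 :=
    pos_of_opn hp hn fun ω hω => ⟨elB d n, three_opn hω⟩
  exact h6 (triE_null hd κ p n)

lemma closed_ae (d : ℕ) {p : unitInterval} (hp : (p : ℝ) = 0) :
    ∀ᵐ ω ∂(prodBern (El d) p), ∀ e, ω e = false := by
  rw [ae_all_iff]
  intro e
  have h1 : (prodBern (El d) p).map (fun ω => ω e) = bern p := by
    unfold prodBern
    exact Measure.infinitePi_map_eval (fun _ : El d => bern p) e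
  have h2 : ∀ᵐ b ∂((prodBern (El d) p).map (fun ω => ω e)), b = false := by
    rw [h1, ae_iff]
    have h3 : {a : Bool | ¬ a = false} = {true} := by
      ext b
      cases b <;> simp
    rw [h3]
    unfold bern
    simp [hp]
  exact ae_of_ae_map (measurable_pi_apply e).aemeasurable h2

/-- **uniqueness of the infinite cluster** (Burton-Keane) -/
theorem uniq (κ : Kind) (d : ℕ) (p : unitInterval) :
    ∀ᵐ ω ∂(prodBern (El d) p), ∀ x y : V d, {z | (Gr κ ω).Reachable x z}.Infinite →
      {z | (Gr κ ω).Reachable y z}.Infinite → (Gr κ ω).Reachable x y := by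
  rcases Nat.eq_zero_or_pos d with rfl | hd
  · refine Filter.Eventually.of_forall fun ω x y _ _ => ?_
    rw [Subsingleton.elim x y]
  rcases eq_or_lt_of_le p.2.1 with hp | hp
  · filter_upwards [closed_ae d (p := p) hp.symm] with ω hω x y hx _
    exfalso
    apply hx
    refine (Set.finite_singleton x).subset ?_
    intro z hz
    refine reach_induct (fun z => z ∈ ({x} : Set (V d))) hz rfl ?_
    intro a b _ _ hab
    exfalso
    obtain ⟨-, h2⟩ := hab
    cases κ
    · rw [hω] at h2
      exact Bool.false_ne_true h2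
    · have h3 := h2.1
      rw [hω] at h3
      exact Bool.false_ne_true h3
  · filter_upwards [two_null κ hd (p := p) hp] with ω hω x y hx hy
    by_contra hxy
    exact hω ⟨x, y, hx, hy, hxy⟩

end Pool.Agent.H38.BK
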